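import Pool.Agent.H666R3.NG.Ring

/-!
# The affine diagonal curve `α x^d + y^d + β = 0`

Adapted from `Pool/Agent/H666R3/NG/Ring.lean` (the case `d = 4`, `α = β = 1`).
-/

set_option autoImplicit false

open Polynomial

namespace Pool.Agent.Y397.NG

section basic

variable (R : Type) [CommRing R] (d : ℕ) (α β : R)

/-- The polynomial `y^d + (α x^d + β)` in `R[x][y]`. -/
noncomputable def pol : R[X][X] := X ^ d + C (C α * X ^ d + C β)

/-- The coordinate ring of the affine diagonal curve. -/
abbrev A : Type := AdjoinRoot (pol R d α β)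

/-- the coordinate function `y`. -/
noncomputable def y : A R d α β := AdjoinRoot.root (pol R d α β)

/-- the coordinate function `x`. -/
noncomputable def x : A R d α β := AdjoinRoot.of (pol R d α β) X

lemma pol_monic (hd : 0 < d) : (pol R d α β).Monic := by
  unfold pol
  exact monic_X_pow_add_C _ hd.ne'

lemma eval_pol {E : Type*} [CommRing E] (g : R[X] →+* E) (b : E) :
    (pol R d α β).eval₂ g b = b ^ d + (g (C α) * g X ^ d + g (C β)) := by
  rw [pol, eval₂_add, eval₂_pow, eval₂_X, eval₂_C, map_add, map_mul, map_pow]

lemma rel : algebraMap R (A R d α β) α * x R d α β ^ d + y R d α β ^ d +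
    algebraMap R (A R d α β) β = 0 := by
  have h := AdjoinRoot.eval₂_root (pol R d α β)
  rw [eval_pol] at h
  have h1 : algebraMap R (A R d α β) α = AdjoinRoot.of (pol R d α β) (C α) := rfl
  have h2 : algebraMap R (A R d α β) β = AdjoinRoot.of (pol R d α β) (C β) := rfl
  rw [h1, h2]
  unfold x y
  linear_combination h

variable {R d α β}

/-- universal property. -/
noncomputable def lift {E : Type*} [CommRing E] [Algebra R E] (a b : E)
    (h : algebraMap R E α * a ^ d + b ^ d + algebraMap R E β = 0) :
    A R d α β →ₐ[R] E :=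
  AdjoinRoot.liftAlgHom (pol R d α β) (Polynomial.aeval a) b (by
    rw [eval_pol]
    simp
    linear_combination h)

@[simp] lemma lift_y {E : Type*} [CommRing E] [Algebra R E] (a b : E)
    (h : algebraMap R E α * a ^ d + b ^ d + algebraMap R E β = 0) :
    lift a b h (y R d α β) = b := by
  simp [lift, y]

@[simp] lemma lift_x {E : Type*} [CommRing E] [Algebra R E] (a b : E)
    (h : algebraMap R E α * a ^ d + b ^ d + algebraMap R E β = 0) :
    lift a b h (x R d α β) = a := by
  simp [lift, x]

lemma ext_A {E : Type*} [CommRing E] [Algebra R E] {f g : A R d α β →ₐ[R] E}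
    (h1 : f (x R d α β) = g (x R d α β)) (h2 : f (y R d α β) = g (y R d α β)) : f = g := by
  apply AlgHom.ext
  have h3 : ∀ a : R[X], f (AdjoinRoot.of (pol R d α β) a) = g (AdjoinRoot.of (pol R d α β) a) := by
    intro a
    induction a using Polynomial.induction_on' with
    | add p q hp hq => simp only [map_add, hp, hq]
    | monomial m r =>
      have e : AdjoinRoot.of (pol R d α β) (monomial m r) =
          algebraMap R (A R d α β) r * x R d α β ^ m := by
        rw [← C_mul_X_pow_eq_monomial, map_mul, map_pow]
        rfl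
      rw [e, map_mul, map_mul, map_pow, map_pow, h1, AlgHom.commutes, AlgHom.commutes]
  intro z
  obtain ⟨p, rfl⟩ := AdjoinRoot.mk_surjective z
  induction p using Polynomial.induction_on' with
  | add p q hp hq => simp only [map_add, hp, hq]
  | monomial n a =>
    have e : AdjoinRoot.mk (pol R d α β) (monomial n a) =
        AdjoinRoot.of (pol R d α β) a * y R d α β ^ n := by
      rw [← C_mul_X_pow_eq_monomial, map_mul, map_pow, AdjoinRoot.mk_X, AdjoinRoot.mk_C]
      rfl
    rw [e, map_mul, map_mul, map_pow, map_pow, h2, h3]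

end basic

section domain

variable (K : Type) [Field K] (d : ℕ) (α β : K) (hd : 0 < d) (hdK : (d : K) ≠ 0) (hα : α ≠ 0)
  (hβ : β ≠ 0)

include hd in
lemma natDegree_pol : (pol K d α β).natDegree = d := by
  unfold pol
  rw [natDegree_X_pow_add_C]

include hdK hα hβ in
lemma sep : (C α * X ^ d + C β : K[X]).Separable := by
  have h1 := Polynomial.separable_X_pow_sub_C (n := d) (-(β / α)) hdK
    (neg_ne_zero.2 (div_ne_zero hβ hα))
  have h2 : (C α * X ^ d + C β : K[X]) = C α * (X ^ d - C (-(β / α))) := by
    rw [mul_sub, ← C_mul]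
    have : α * -(β / α) = -β := by field_simp
    rw [this, C_neg, sub_neg_eq_add]
  rw [h2]
  exact h1.unit_mul (isUnit_C.2 (isUnit_iff_ne_zero.2 hα))

include hd hdK hα hβ in
lemma pol_irreducible : Irreducible (pol K d α β) := by
  have hdeg : (C α * X ^ d + C β : K[X]).natDegree = d := by
    rw [natDegree_add_C, natDegree_C_mul_X_pow d α hα]
  have hnu : ¬ IsUnit (C α * X ^ d + C β : K[X]) := by
    intro h
    have := natDegree_eq_zero_of_isUnit h
    omega
  obtain ⟨p, hp, hpd⟩ := WfDvdMonoid.exists_irreducible_factor hnu (by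
    intro h
    rw [h] at hdeg
    simp at hdeg
    omega)
  have hpp : (Ideal.span {p} : Ideal K[X]).IsPrime := by
    rw [Ideal.span_singleton_prime hp.ne_zero]
    exact hp.prime
  have hnd : (pol K d α β).natDegree = d := natDegree_pol K d α β hd
  have hmon := pol_monic K d α β hd
  apply Polynomial.irreducible_of_eisenstein_criterion hpp
  · rw [hmon.leadingCoeff]
    intro h
    exact hpp.ne_top ((Ideal.eq_top_iff_one _).2 h)
  · intro n hn
    rw [degree_eq_natDegree hmon.ne_zero, hnd] at hn
    have hn' : n < d := by exact_mod_cast hn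
    unfold pol
    rw [coeff_add, coeff_X_pow, if_neg (by omega), zero_add, coeff_C]
    split_ifs
    · exact Ideal.mem_span_singleton.2 hpd
    · exact Ideal.zero_mem _
  · rw [degree_eq_natDegree hmon.ne_zero, hnd]
    exact_mod_cast hd
  · unfold pol
    rw [coeff_add, coeff_X_pow, if_neg (by omega), zero_add, coeff_C_zero]
    rw [Ideal.span_singleton_pow, Ideal.mem_span_singleton]
    intro h
    have hsq := (sep K d α β hdK hα hβ).squarefree
    rw [sq] at h
    exact hp.not_isUnit (hsq p h)
  · exact hmon.isPrimitive

include hd hdK hα hβ in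
lemma isDomain_A : IsDomain (A K d α β) :=
  AdjoinRoot.isDomain_of_prime (pol_irreducible K d α β hd hdK hα hβ).prime

end domain

section smooth

variable (K : Type) [Field K] (d : ℕ) (α β : K) (hd : 0 < d) (hdK : (d : K) ≠ 0)

/-- The standard etale pair. -/
noncomputable def etPair : StandardEtalePair K[X] where
  f := pol K d α β
  monic_f := pol_monic K d α β hd
  g := X
  cond := ⟨C (C (d : K)⁻¹), 0, d - 1, by
    have e : derivative (pol K d α β) = C (C (d : K)) * X ^ (d - 1) := by
      rw [pol, derivative_add, derivative_C, derivative_X_pow, add_zero]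
      simp only [map_natCast]
    rw [e, mul_zero, add_zero]
    calc C (C (d : K)) * X ^ (d - 1) * C (C (d : K)⁻¹) = C (C ((d : K) * (d : K)⁻¹)) * X ^ (d - 1) := by
          simp only [map_mul]; ring
      _ = X ^ (d - 1) := by rw [mul_inv_cancel₀ hdK]; simp⟩

include hd hdK

lemma smooth_away_y :
    Algebra.IsStandardSmoothOfRelativeDimension 1 K (Localization.Away (y K d α β)) := by
  have h1 : Algebra.Etale K[X] (etPair K d α β hd hdK).Ring := inferInstance
  have h3 : Algebra.Etale K[X] (Localization.Away (y K d α β)) :=
    Algebra.Etale.of_equiv (etPair K d α β hd hdK).equivAwayAdjoinRoot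
  have h4 : Algebra.IsStandardSmoothOfRelativeDimension 0 K[X] (Localization.Away (y K d α β)) :=
    Algebra.Etale.iff_isStandardSmoothOfRelativeDimension_zero.1 h3
  have h5 := Pool.Agent.H666R3.NG.Fermat.smooth_poly K
  exact Algebra.IsStandardSmoothOfRelativeDimension.trans 1 0 K K[X] (Localization.Away (y K d α β))

lemma smooth_away {B : Type} [CommRing B] [Algebra K B] (e : B ≃ₐ[K] A K d α β) (t : B)
    (ht : e t = y K d α β) : Algebra.IsStandardSmoothOfRelativeDimension 1 K (Localization.Away t) := by
  have h1 := smooth_away_y K d α β hd hdK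
  have H : Submonoid.map e.symm (Submonoid.powers (y K d α β)) = Submonoid.powers t := by
    rw [Submonoid.map_powers, ← ht]
    simp
  exact Algebra.IsStandardSmoothOfRelativeDimension.of_algEquiv 1
    (IsLocalization.algEquivOfAlgEquiv (M := Submonoid.powers (y K d α β)) (T := Submonoid.powers t)
      (Localization.Away (y K d α β)) (Localization.Away t) e.symm H)

end smooth

end Pool.Agent.Y397.NG
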