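import Pool.Agent.H666R3.NG.Cech
import Pool.Agent.Y397.NG.Ring

/-!
# The first Cech cohomology of a diagonal plane curve

Adapted from `Pool/Agent/H666R3/NG/Cech.lean` (the case `d = 4`, `α = β = 1`).
-/

set_option autoImplicit false

open Polynomial Module

namespace Pool.Agent.Y397.NG

section count

/-- the number of the basis elements which are not in the span. -/
lemma count_compl (d : ℕ) :
    (({p : ℤ × Fin d | p.1 + (p.2 : ℕ) ≤ 0} ∪ {p | 0 ≤ p.1})ᶜ).Finite ∧
    (({p : ℤ × Fin d | p.1 + (p.2 : ℕ) ≤ 0} ∪ {p | 0 ≤ p.1})ᶜ).ncard = (d - 1) * (d - 2) / 2 := by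
  classical
  have key : ({p : ℤ × Fin d | p.1 + (p.2 : ℕ) ≤ 0} ∪ {p | 0 ≤ p.1})ᶜ =
      ((((Finset.Ico (-(d : ℤ)) 0) ×ˢ (Finset.univ : Finset (Fin d))).filter
        (fun p => 0 < p.1 + (p.2 : ℕ)) : Finset (ℤ × Fin d)) : Set (ℤ × Fin d)) := by
    ext ⟨m, i⟩
    have := i.isLt
    simp only [Set.mem_compl_iff, Set.mem_union, Set.mem_ofPred_eq, Finset.coe_filter,
      Finset.mem_product, Finset.mem_Ico, Finset.mem_univ, and_true, not_or, not_le]
    omega
  rw [key]
  refine ⟨Finset.finite_toSet _, ?_⟩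
  rw [Set.ncard_coe_finset, Finset.card_filter, Finset.sum_product_right]
  have h1 : ∀ i : Fin d, (∑ m ∈ Finset.Ico (-(d : ℤ)) 0, if 0 < m + ((i : ℕ) : ℤ) then 1 else 0) =
      (i : ℕ) - 1 := by
    intro i
    have hi := i.isLt
    rw [← Finset.card_filter]
    have : (Finset.Ico (-(d : ℤ)) 0).filter (fun m => 0 < m + ((i : ℕ) : ℤ)) =
        Finset.Ico (1 - ((i : ℕ) : ℤ)) 0 := by
      ext m
      simp only [Finset.mem_filter, Finset.mem_Ico]
      omega
    rw [this, Int.card_Ico]
    omega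
  rw [Finset.sum_congr rfl (fun i _ => h1 i), Fin.sum_univ_eq_sum_range (fun i => i - 1) d]
  rcases d with _ | d
  · rfl
  · rw [Finset.sum_range_succ']
    simp only [Nat.add_sub_cancel, zero_tsub, add_zero]
    rw [Finset.sum_range_id]
    rfl

end count

section ring

variable (K : Type) [Field K] (d : ℕ) (α β : K) (hd : 0 < d)

/-- The basis `1, y, …, y^(d-1)` over `K[x]`. -/
noncomputable def bA : Basis (Fin d) K[X] (A K d α β) :=
  (AdjoinRoot.powerBasis' (pol_monic K d α β hd)).basis.reindex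
    (finCongr (natDegree_pol K d α β hd))

lemma bA_apply (i : Fin d) : bA K d α β hd i = y K d α β ^ (i : ℕ) := by
  unfold bA
  rw [Basis.reindex_apply, PowerBasis.basis_eq_pow]
  rfl

include hd in
lemma span_A : Submodule.span K
    (Set.range fun p : ℕ × Fin d => x K d α β ^ p.1 * y K d α β ^ (p.2 : ℕ)) = ⊤ := by
  let b : Basis (ℕ × Fin d) K (A K d α β) :=
    (Polynomial.basisMonomials K).smulTower (bA K d α β hd)
  have hb : (fun p : ℕ × Fin d => x K d α β ^ p.1 * y K d α β ^ (p.2 : ℕ)) = b := by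
    funext p
    rw [Basis.smulTower_apply, bA_apply, Polynomial.coe_basisMonomials, Algebra.smul_def]
    congr 1
    have : (monomial p.1 1 : K[X]) = X ^ p.1 := by
      rw [← X_pow_eq_monomial]
    change _ = algebraMap K[X] (A K d α β) (monomial p.1 1)
    rw [this, map_pow]
    rfl
  rw [hb, b.span_eq]

variable {K d α β}
variable {α' β' : K}
variable {B : Type} [CommRing B] [Algebra K B]

include hd in
lemma range_eq_span (r : A K d α β →ₐ[K] B) :
    LinearMap.range r.toLinearMap =
      Submodule.span K (Set.range fun p : ℕ × Fin d =>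
        r (x K d α β) ^ p.1 * r (y K d α β) ^ (p.2 : ℕ)) := by
  rw [← Submodule.map_top, ← span_A K d α β hd, Submodule.map_span, ← Set.range_comp]
  congr 2
  funext p
  simp

variable [Algebra (A K d α β) B] [IsScalarTower K (A K d α β) B]
  [IsLocalization.Away (x K d α β) B]

include hd in
lemma exists_basis (u : Bˣ) (hu : (u : B) = algebraMap (A K d α β) B (x K d α β)) :
    ∃ b : Basis (ℤ × Fin d) K B, ∀ p, b p = ((u ^ p.1 : Bˣ) : B) *
      (algebraMap (A K d α β) B (y K d α β)) ^ (p.2 : ℕ) := by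
  let i1 : Algebra K[X] B :=
    ((algebraMap (A K d α β) B).comp (algebraMap K[X] (A K d α β))).toAlgebra
  have t1 : IsScalarTower K[X] (A K d α β) B := IsScalarTower.of_algebraMap_eq (fun r => rfl)
  let i2 : Algebra (LaurentPolynomial K) B := (LaurentPolynomial.eval₂ (algebraMap K B) u).toAlgebra
  have t2 : IsScalarTower K[X] (LaurentPolynomial K) B := by
    apply IsScalarTower.of_algebraMap_eq'
    apply Polynomial.ringHom_ext
    · intro a
      change algebraMap (A K d α β) B (algebraMap K[X] (A K d α β) (C a)) =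
        LaurentPolynomial.eval₂ (algebraMap K B) u (Polynomial.toLaurent (C a))
      rw [LaurentPolynomial.eval₂_toLaurent, eval₂_C, IsScalarTower.algebraMap_apply K (A K d α β) B]
      rfl
    · change algebraMap (A K d α β) B (algebraMap K[X] (A K d α β) X) =
        LaurentPolynomial.eval₂ (algebraMap K B) u (Polynomial.toLaurent X)
      rw [LaurentPolynomial.eval₂_toLaurent, eval₂_X, hu]
      rfl
  have t3 : IsScalarTower K (LaurentPolynomial K) B := by
    apply IsScalarTower.of_algebraMap_eq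
    intro a
    change _ = LaurentPolynomial.eval₂ (algebraMap K B) u (LaurentPolynomial.C a)
    rw [LaurentPolynomial.eval₂_C]
  have l1 : IsLocalization
      (Algebra.algebraMapSubmonoid (A K d α β) (Submonoid.powers (X : K[X]))) B := by
    rw [Algebra.algebraMapSubmonoid_powers]
    exact inferInstanceAs (IsLocalization.Away (x K d α β) B)
  let bL : Basis (Fin d) (LaurentPolynomial K) B :=
    (bA K d α β hd).localizationLocalization (LaurentPolynomial K)
      (Submonoid.powers (X : K[X])) B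
  refine ⟨(AddMonoidAlgebra.basis ℤ K).smulTower bL, fun p => ?_⟩
  rw [Basis.smulTower_apply, Basis.localizationLocalization_apply, bA_apply,
    AddMonoidAlgebra.basis_apply, Algebra.smul_def, map_pow]
  congr 1
  change LaurentPolynomial.eval₂ (algebraMap K B) u (LaurentPolynomial.T p.1) = _
  rw [LaurentPolynomial.eval₂_T]

include hd in
/-- The computation of the Cech cohomology. -/
theorem cech (u : Bˣ) (hu : (u : B) = algebraMap (A K d α β) B (x K d α β))
    (r : A K d α' β' →ₐ[K] B)
    (h1 : r (x K d α' β') = ((u⁻¹ : Bˣ) : B))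
    (h2 : r (y K d α' β') = algebraMap (A K d α β) B (y K d α β) * ((u⁻¹ : Bˣ) : B)) :
    Module.Finite K (B ⧸ (LinearMap.range r.toLinearMap ⊔
      LinearMap.range (IsScalarTower.toAlgHom K (A K d α β) B).toLinearMap)) ∧
    finrank K (B ⧸ (LinearMap.range r.toLinearMap ⊔
      LinearMap.range (IsScalarTower.toAlgHom K (A K d α β) B).toLinearMap)) =
      (d - 1) * (d - 2) / 2 := by
  obtain ⟨b, hb⟩ := exists_basis (K := K) hd u hu
  have e1 : LinearMap.range r.toLinearMap = Submodule.span K (b '' {p | p.1 + (p.2 : ℕ) ≤ 0}) := by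
    rw [range_eq_span hd]
    congr 1
    ext z
    constructor
    · rintro ⟨⟨n, i⟩, rfl⟩
      refine ⟨(-(n + (i : ℕ) : ℤ), i), by simp, ?_⟩
      rw [hb]
      simp only [h1, h2]
      rw [mul_pow, ← Units.val_pow_eq_pow_val, ← Units.val_pow_eq_pow_val, neg_add, zpow_add,
        zpow_neg, zpow_neg, zpow_natCast, zpow_natCast, inv_pow, inv_pow, Units.val_mul]
      ring
    · rintro ⟨⟨m, i⟩, hm, rfl⟩
      have hm' : m + (i : ℕ) ≤ 0 := hm
      obtain ⟨n, hn⟩ := Int.eq_ofNat_of_zero_le (show 0 ≤ -(m + (i : ℕ)) by omega)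
      refine ⟨(n, i), ?_⟩
      have hm2 : m = -(n + (i : ℕ) : ℤ) := by
        have : ((n : ℕ) : ℤ) = Int.ofNat n := rfl
        omega
      rw [hb]
      simp only [h1, h2]
      rw [hm2, mul_pow, ← Units.val_pow_eq_pow_val, ← Units.val_pow_eq_pow_val, neg_add, zpow_add,
        zpow_neg, zpow_neg, zpow_natCast, zpow_natCast, inv_pow, inv_pow, Units.val_mul]
      ring
  have e2 : LinearMap.range (IsScalarTower.toAlgHom K (A K d α β) B).toLinearMap =
      Submodule.span K (b '' {p | 0 ≤ p.1}) := by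
    rw [range_eq_span hd]
    congr 1
    ext z
    constructor
    · rintro ⟨⟨n, i⟩, rfl⟩
      refine ⟨((n : ℤ), i), by simp, ?_⟩
      rw [hb]
      simp only [IsScalarTower.coe_toAlgHom', ← hu]
      rw [zpow_natCast, Units.val_pow_eq_pow_val]
    · rintro ⟨⟨m, i⟩, hm, rfl⟩
      obtain ⟨n, rfl⟩ := Int.eq_ofNat_of_zero_le (show 0 ≤ m from hm)
      refine ⟨(n, i), ?_⟩
      rw [hb]
      simp only [IsScalarTower.coe_toAlgHom', ← hu]
      rw [zpow_natCast, Units.val_pow_eq_pow_val]
  have e3 : LinearMap.range r.toLinearMap ⊔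
      LinearMap.range (IsScalarTower.toAlgHom K (A K d α β) B).toLinearMap =
      Submodule.span K (b '' ({p | p.1 + (p.2 : ℕ) ≤ 0} ∪ {p | 0 ≤ p.1})) := by
    rw [e1, e2, ← Submodule.span_union, Set.image_union]
  have hc := count_compl d
  rw [e3]
  have hfin := Pool.Agent.H666R3.NG.Fermat.finrank_quot b
    ({p | p.1 + (p.2 : ℕ) ≤ 0} ∪ {p | 0 ≤ p.1}) hc.1
  exact ⟨hfin.1, hfin.2.trans hc.2⟩

end ring

end Pool.Agent.Y397.NG
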