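import Pool.Agent.H666R3.NG.Curve
import Pool.Agent.Y397.NG.Ring

/-!
# Projective diagonal curves

Adapted from `Pool/Agent/H666R3/NG/Curve.lean` (the case `d = 4`, `w = 1`).
-/

set_option autoImplicit false

open MvPolynomial AlgebraicGeometry CategoryTheory Limits TopologicalSpace

namespace Pool.Agent.Y397.NG

open Pool.Agent.Helper198.Sch
open Pool.Agent.H666R3.NG.Fermat (Ord exists_ord)

attribute [local instance] MvPolynomial.gradedAlgebra

section defs

variable (R : Type) [CommRing R] (d : ℕ) (w : Fin 3 → R)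

/-- The form `w₀ X₀^d + w₁ X₁^d + w₂ X₂^d`. -/
noncomputable def form : MvPolynomial (Fin 3) R := ∑ i, C (w i) * X i ^ d

lemma form_hom : (form R d w).IsHomogeneous d := by
  unfold form
  apply MvPolynomial.IsHomogeneous.sum
  intro i _
  have h1 : (C (w i) : MvPolynomial (Fin 3) R).IsHomogeneous 0 := isHomogeneous_C _ _
  have h2 : (X i ^ d : MvPolynomial (Fin 3) R).IsHomogeneous d := by
    simpa using (isHomogeneous_X R i).pow d
  simpa using h1.mul h2

/-- The homogeneous ideal generated by the diagonal form. -/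
noncomputable def J : HI (Fin 3) R :=
  HI.ofSet {form R d w} (by rintro f rfl; exact ⟨d, form_hom R d w⟩)

/-- The curve `w₀ X₀^d + w₁ X₁^d + w₂ X₂^d = 0` in the projective plane. -/
noncomputable abbrev curve : Scheme.{0} := V (J R d w)

variable {R}

lemma aeval_form {E : Type*} [CommRing E] [Algebra R E] (u : Fin 3 → E) :
    aeval u (form R d w) = ∑ i, algebraMap R E (w i) * u i ^ d := by
  simp [form]

variable {d w}

lemma aeval_J {E : Type*} [CommRing E] [Algebra R E] (u : Fin 3 → E)
    (hu : ∑ i, algebraMap R E (w i) * u i ^ d = 0) :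
    ∀ f ∈ (J R d w).toIdeal, aeval u f = 0 := by
  apply aeval_ofSet
  rintro f rfl
  rw [aeval_form, hu]

lemma sum_frac (c : Fin 3) : ∑ i, algebraMap R _ (w i) * frac (J R d w) c i ^ d = 0 := by
  rw [← aeval_form (R := R)]
  exact aeval_frac_eq_zero _ _ _ (mem_ofSet rfl)

end defs

section charts

variable {K : Type} [Field K] {d : ℕ} {w : Fin 3 → K} (hw : ∀ i, w i ≠ 0)

/-- the coefficient of `x^d` in the equation of the chart. -/
noncomputable def al (w : Fin 3 → K) (t : Ord) : K := (w t.a)⁻¹ * w t.b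

/-- the constant coefficient in the equation of the chart. -/
noncomputable def be (w : Fin 3 → K) (t : Ord) : K := (w t.a)⁻¹ * w t.c

include hw in
lemma al_ne (t : Ord) : al w t ≠ 0 := mul_ne_zero (inv_ne_zero (hw _)) (hw _)

include hw in
lemma be_ne (t : Ord) : be w t ≠ 0 := mul_ne_zero (inv_ne_zero (hw _)) (hw _)

/-- the universal point. -/
noncomputable def pt (d : ℕ) (w : Fin 3 → K) (t : Ord) (i : Fin 3) : A K d (al w t) (be w t) :=
  if i = t.c then 1 else if i = t.a then y K d (al w t) (be w t) else x K d (al w t) (be w t)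

lemma pt_c (t : Ord) : pt d w t t.c = 1 := by simp [pt]
lemma pt_a (t : Ord) : pt d w t t.a = y K d (al w t) (be w t) := by simp [pt, t.hac]
lemma pt_b (t : Ord) : pt d w t t.b = x K d (al w t) (be w t) := by
  simp [pt, t.hbc, t.hab.symm]

include hw in
lemma sum_pt (t : Ord) : ∑ i, algebraMap K _ (w i) * pt d w t i ^ d = 0 := by
  rw [t.sum, pt_c, pt_a, pt_b, one_pow, mul_one]
  have h := rel K d (al w t) (be w t)
  have h1 : algebraMap K (A K d (al w t) (be w t)) (w t.b) =
      algebraMap K _ (w t.a) * algebraMap K _ (al w t) := by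
    rw [← map_mul, al, mul_inv_cancel_left₀ (hw _)]
  have h2 : algebraMap K (A K d (al w t) (be w t)) (w t.c) =
      algebraMap K _ (w t.a) * algebraMap K _ (be w t) := by
    rw [← map_mul, be, mul_inv_cancel_left₀ (hw _)]
  rw [h1, h2]
  linear_combination algebraMap K _ (w t.a) * h

include hw in
lemma frac_rel (t : Ord) :
    algebraMap K _ (al w t) * frac (J K d w) t.c t.b ^ d + frac (J K d w) t.c t.a ^ d +
      algebraMap K _ (be w t) = 0 := by
  have := sum_frac (R := K) (d := d) (w := w) t.c
  rw [t.sum, frac_self, one_pow, mul_one] at this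
  have h0 : algebraMap K (Ch (J K d w) t.c) (w t.a)⁻¹ * algebraMap K _ (w t.a) = 1 := by
    rw [← map_mul, inv_mul_cancel₀ (hw _), map_one]
  rw [al, be, map_mul, map_mul]
  linear_combination (algebraMap K _ (w t.a)⁻¹) * this - frac (J K d w) t.c t.a ^ d * h0

/-- The chart ring is the coordinate ring of the affine curve. -/
noncomputable def chEquiv (t : Ord) : Ch (J K d w) t.c ≃ₐ[K] A K d (al w t) (be w t) :=
  AlgEquiv.ofAlgHom (chLift (J K d w) t.c (pt d w t) (pt_c t) (aeval_J _ (sum_pt hw t)))
    (lift (frac (J K d w) t.c t.b) (frac (J K d w) t.c t.a) (frac_rel hw t))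
    (by
      apply ext_A
      · simp [chLift_frac, pt_b]
      · simp [chLift_frac, pt_a])
    (by
      apply ch_algHom_ext
      intro i
      rw [AlgHom.comp_apply, chLift_frac, AlgHom.id_apply]
      rcases t.cases i with rfl | rfl | rfl
      · rw [pt_c, map_one, frac_self]
      · rw [pt_a, lift_y]
      · rw [pt_b, lift_x])

lemma chEquiv_a (t : Ord) :
    chEquiv (d := d) hw t (frac (J K d w) t.c t.a) = y K d (al w t) (be w t) := by
  change chLift (J K d w) t.c (pt d w t) (pt_c t) (aeval_J _ (sum_pt hw t)) _ = _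
  rw [chLift_frac, pt_a]

lemma chEquiv_b (t : Ord) :
    chEquiv (d := d) hw t (frac (J K d w) t.c t.b) = x K d (al w t) (be w t) := by
  change chLift (J K d w) t.c (pt d w t) (pt_c t) (aeval_J _ (sum_pt hw t)) _ = _
  rw [chLift_frac, pt_b]

end charts

section smooth

variable {K : Type} [Field K] {d : ℕ} {w : Fin 3 → K} (hw : ∀ i, w i ≠ 0) (hd : 0 < d)
  (hdK : (d : K) ≠ 0)

include hw hd hdK

set_option backward.isDefEq.respectTransparency.types false in
lemma smooth_curve : SmoothOfRelativeDimension 1 (V.str (J K d w)) := by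
  apply IsZariskiLocalAtSource.of_openCover
    (V.coverOf (J K d w) Ord.c (fun x => by
      obtain ⟨c, hc⟩ := V.exists_mem_D (J K d w) x
      obtain ⟨t, rfl⟩ := exists_ord c
      exact ⟨t, hc⟩)).openCover
  intro (t : Ord)
  change SmoothOfRelativeDimension 1 (V.chart (J K d w) t.c ≫ V.str (J K d w))
  rw [V.chart_str, HasRingHomProperty.Spec_iff (P := @SmoothOfRelativeDimension 1)]
  refine ⟨{frac (J K d w) t.c t.a, frac (J K d w) t.c t.b}, ?_, ?_⟩
  · rw [Ideal.eq_top_iff_one]
    have h := frac_rel (d := d) hw t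
    obtain ⟨e, rfl⟩ : ∃ e, d = e + 1 := ⟨d - 1, by omega⟩
    have h0 : algebraMap K (Ch (J K (e + 1) w) t.c) (be w t)⁻¹ * algebraMap K _ (be w t) = 1 := by
      rw [← map_mul, inv_mul_cancel₀ (be_ne hw t), map_one]
    have h1 : (1 : Ch (J K (e + 1) w) t.c) =
      (-(algebraMap K _ (be w t)⁻¹ * frac (J K (e + 1) w) t.c t.a ^ e)) *
        frac (J K (e + 1) w) t.c t.a +
      (-(algebraMap K _ (be w t)⁻¹ * algebraMap K _ (al w t) *
        frac (J K (e + 1) w) t.c t.b ^ e)) * frac (J K (e + 1) w) t.c t.b := by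
      rw [pow_succ, pow_succ] at h
      linear_combination (algebraMap K _ (be w t)⁻¹) * h - h0
    rw [h1]
    exact Ideal.add_mem _ (Ideal.mul_mem_left _ _ (Ideal.subset_span (by simp)))
      (Ideal.mul_mem_left _ _ (Ideal.subset_span (by simp)))
  · rintro s (rfl | hs)
    · have h3 := smooth_away K d _ _ hd hdK (chEquiv hw t) (frac (J K d w) t.c t.a)
        (chEquiv_a hw t)
      have := (RingHom.isStandardSmoothOfRelativeDimension_algebraMap 1).2 h3
      rw [IsScalarTower.algebraMap_eq K (Ch (J K d w) t.c)] at this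
      exact this
    · rw [Set.mem_singleton_iff] at hs
      subst hs
      have h3 : Algebra.IsStandardSmoothOfRelativeDimension 1 K
          (Localization.Away (frac (J K d w) t.c t.b)) :=
        smooth_away K d _ _ hd hdK (chEquiv hw t.swap) (frac (J K d w) t.c t.b)
          (chEquiv_a hw t.swap)
      have := (RingHom.isStandardSmoothOfRelativeDimension_algebraMap 1).2 h3
      rw [IsScalarTower.algebraMap_eq K (Ch (J K d w) t.c)] at this
      exact this

end smooth

section basechange

variable {R R' : Type} [CommRing R] [CommRing R'] (φ : R →+* R') (d : ℕ) (w : Fin 3 → R)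

/-- The map between the curves induced by a ring homomorphism. -/
lemma rel_J : V.Rel φ (J R d w) (J R' d (fun i => φ (w i))) := by
  apply rel_ofSet
  rintro f rfl
  have h : (MvPolynomial.map φ) (form R d w) = form R' d (fun i => φ (w i)) := by simp [form]
  rw [h]
  exact Set.mem_singleton _

lemma le_map_J :
    (J R' d (fun i => φ (w i))).toIdeal ≤ (J R d w).toIdeal.map (MvPolynomial.map φ) := by
  apply le_map_ofSet
  rintro f rfl
  exact ⟨form R d w, rfl, by simp [form]⟩

end basechange

section integral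

variable {K : Type} [Field K] {d : ℕ} {w : Fin 3 → K} (hw : ∀ i, w i ≠ 0) (hd : 0 < d)
  (hdK : (d : K) ≠ 0)

include hd hdK in
lemma x_ne_zero {α β : K} (hα : α ≠ 0) (hβ : β ≠ 0) : x K d α β ≠ 0 := by
  have hdom := isDomain_A K d α β hd hdK hα hβ
  intro h
  have h1 : AdjoinRoot.of (pol K d α β) Polynomial.X = 0 := h
  have h3 := AdjoinRoot.of.injective_of_degree_ne_zero (f := pol K d α β) (by
    rw [Polynomial.degree_eq_natDegree (pol_monic K d α β hd).ne_zero, natDegree_pol K d α β hd]
    exact_mod_cast hd.ne')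
  rw [← map_zero (AdjoinRoot.of (pol K d α β))] at h1
  exact Polynomial.X_ne_zero (h3 h1)

include hw hd hdK

lemma frac_ne_zero (t : Ord) (i : Fin 3) : frac (J K d w) t.c i ≠ 0 := by
  have hx := x_ne_zero (d := d) hd hdK (al_ne hw t) (be_ne hw t)
  have hx' := x_ne_zero (d := d) hd hdK (al_ne hw t.swap) (be_ne hw t.swap)
  rcases t.cases i with rfl | rfl | rfl
  · rw [frac_self]
    intro h
    have := congrArg (chEquiv (d := d) hw t) h
    rw [map_one, map_zero] at this
    have hdom := isDomain_A K d _ _ hd hdK (al_ne hw t) (be_ne hw t)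
    exact one_ne_zero this
  · intro h
    have h1 : chEquiv (d := d) hw t.swap (frac (J K d w) t.swap.c t.swap.b) = 0 := by
      have h' : frac (J K d w) t.swap.c t.swap.b = 0 := h
      rw [h', map_zero]
    exact hx' ((chEquiv_b (d := d) hw t.swap).symm.trans h1)
  · intro h
    have := congrArg (chEquiv (d := d) hw t) h
    rw [map_zero, chEquiv_b] at this
    exact hx this

lemma isDomain_Ch (t : Ord) : IsDomain (Ch (J K d w) t.c) := by
  have hdom := isDomain_A K d _ _ hd hdK (al_ne hw t) (be_ne hw t)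
  exact (chEquiv (d := d) hw t).toMulEquiv.isDomain _

lemma isIntegral_curve : IsIntegral (V (J K d w)) := by
  let t0 : Ord := ⟨0, 1, 2, by decide, by decide, by decide⟩
  have hdom := isDomain_Ch hw hd hdK t0
  let x0 : Spec (.of (Ch (J K d w) t0.c)) := (⟨⊥, Ideal.isPrime_bot⟩ : PrimeSpectrum _)
  refine V.isIntegral_of_charts (J K d w) (ι := Ord) Ord.c (fun x => ?_) (isDomain_Ch hw hd hdK)
    (V.chart (J K d w) t0.c x0) (fun t => ?_)
  · obtain ⟨c, hc⟩ := V.exists_mem_D (J K d w) x
    obtain ⟨t, rfl⟩ := exists_ord c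
    exact ⟨t, hc⟩
  · rw [V.chart_mem_D]
    intro h
    exact frac_ne_zero hw hd hdK t0 t.c ((Submodule.mem_bot _).1 h)

lemma geometricallyIntegral_curve : GeometricallyIntegral (V.str (J K d w)) := by
  refine ⟨?_⟩
  intro L _ y Z fst snd h
  obtain ⟨φ, rfl⟩ := Spec.map_surjective y
  have hdL : (d : L) ≠ 0 := by
    intro h0
    apply hdK
    apply φ.hom.injective
    rw [map_natCast, map_zero]
    exact h0
  have hwL : ∀ i, φ.hom (w i) ≠ 0 := by
    intro i h0
    apply hw i
    apply φ.hom.injective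
    rw [map_zero]
    exact h0
  have h3 := V.isPullback_map φ.hom (J K d w) (J L d (fun i => φ.hom (w i)))
    (rel_J φ.hom d w) (le_map_J φ.hom d w)
  have h4 := isIntegral_curve (K := L) (d := d) (w := fun i => φ.hom (w i)) hwL hd hdL
  have e : Z ≅ V (J L d (fun i => φ.hom (w i))) := h.isoIsPullback _ _ h3
  have h5 : Nonempty (V (J L d (fun i => φ.hom (w i)))) := inferInstance
  have h6 : Nonempty Z := h5.map e.inv
  exact isIntegral_of_isOpenImmersion e.hom

end integral

section proper

variable (R : Type) [CommRing R] (d : ℕ) (w : Fin 3 → R)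

lemma isProper_curve : IsProper (V.str (J R d w)) := by
  have h0 : IsScalarTower R (qgrad (J R d w).toIdeal 0)
      (MvPolynomial (Fin 3) R ⧸ (J R d w).toIdeal) :=
    IsScalarTower.of_algebraMap_eq (R := R) (S := qgrad (J R d w).toIdeal 0)
      (A := MvPolynomial (Fin 3) R ⧸ (J R d w).toIdeal) (fun r => by rfl)
  have h1 : Algebra.FiniteType (qgrad (J R d w).toIdeal 0)
      (MvPolynomial (Fin 3) R ⧸ (J R d w).toIdeal) :=
    Algebra.FiniteType.of_restrictScalars_finiteType R _ _
  have h2 : IsProper (Proj.toSpecZero (qgrad (J R d w).toIdeal)) := inferInstance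
  have h3 : IsClosedImmersion
      (Spec.map (CommRingCat.ofHom (algebraMap R (qgrad (J R d w).toIdeal 0)))) :=
    IsClosedImmersion.spec_of_surjective _ (Pool.Agent.H666R3.NG.Fermat.surj_zero R (J R d w))
  have h4 : IsProper
      (Spec.map (CommRingCat.ofHom (algebraMap R (qgrad (J R d w).toIdeal 0)))) := inferInstance
  exact MorphismProperty.comp_mem @IsProper _ _ h2 h4

end proper

section points

/-- The diagonal curve has no rational point if the form has no nontrivial zero. -/
lemma no_section {k : Type} [Field k] {d : ℕ} {w : Fin 3 → k}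
    (hk : ∀ u : Fin 3 → k, ∑ i, w i * u i ^ d = 0 → ∀ i, u i = 0)
    (s : Spec (.of k) ⟶ V (J k d w)) (hs : s ≫ V.str (J k d w) = 𝟙 _) : False := by
  let x : Spec (.of k) := IsLocalRing.closedPoint k
  obtain ⟨c, hc⟩ := V.exists_mem_D (J k d w) (s x)
  obtain ⟨t, rfl⟩ := exists_ord c
  have hr : Set.range s ⊆ Set.range (V.chart (J k d w) t.c) := by
    rintro _ ⟨z, rfl⟩
    have : z = x := Subsingleton.elim _ _
    rw [this]
    exact (V.mem_range_chart (J k d w) t.c _).2 hc
  let g : Spec (.of k) ⟶ Spec (.of (Ch (J k d w) t.c)) :=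
    IsOpenImmersion.lift (V.chart (J k d w) t.c) s hr
  have hg : g ≫ V.chart (J k d w) t.c = s := IsOpenImmersion.lift_fac _ _ _
  obtain ⟨φ, hφ⟩ := Spec.map_surjective g
  have h1 : Spec.map (CommRingCat.ofHom (algebraMap k (Ch (J k d w) t.c)) ≫ φ) =
      Spec.map (𝟙 (.of k)) := by
    rw [Spec.map_comp, hφ, Spec.map_id]
    refine Eq.trans ?_ hs
    rw [← hg, Category.assoc, V.chart_str]
  have h2 := Spec.map_injective h1
  have h3 : ∀ r : k, φ.hom (algebraMap k (Ch (J k d w) t.c) r) = r := by
    intro r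
    exact congrArg (fun f => f.hom r) h2
  have h4 := congrArg φ.hom (sum_frac (R := k) (d := d) (w := w) t.c)
  rw [map_sum, map_zero] at h4
  have h5 := hk (fun i => φ.hom (frac (J k d w) t.c i)) (by
    rw [← h4]
    refine Finset.sum_congr rfl (fun i _ => ?_)
    rw [map_mul, map_pow, h3]) t.c
  rw [frac_self, map_one] at h5
  exact one_ne_zero h5

end points

end Pool.Agent.Y397.NG
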