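import Pool.Agent.H666R3.NG.Genus
import Pool.Agent.Y397.NG.Curve
import Pool.Agent.Y397.NG.Cech

/-!
# The genus of a diagonal plane curve

Adapted from `Pool/Agent/H666R3/NG/Genus.lean` (the case `d = 4`, `w = 1`).
-/

set_option autoImplicit false

open MvPolynomial AlgebraicGeometry CategoryTheory Limits TopologicalSpace HomogeneousLocalization

namespace Pool.Agent.Y397.NG

open Pool.Agent.Helper198.Sch
open Pool.Agent.H666R3.NG
open Pool.Agent.H666R3.NG.Fermat (Ord exists_ord pstr awAlg fnHom_basicOpen awayToSection_bijective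
  range_res isLoc_transfer t1 t2)

attribute [local instance] MvPolynomial.gradedAlgebra

section diagonal

variable {K : Type} [Field K] (I : HI (Fin 3) K)

/-- the grading -/
noncomputable abbrev gr : ℕ → Submodule K (MvPolynomial (Fin 3) K ⧸ I.toIdeal) :=
  qgrad I.toIdeal

/-- `X₁ X₂`. -/
noncomputable def s12 : MvPolynomial (Fin 3) K ⧸ I.toIdeal := gen I 1 * gen I 2

lemma s12_eq : s12 I = gen I 2 * gen I 1 := mul_comm _ _

lemma s12_mem : s12 I ∈ gr I (1 + 1) := SetLike.mul_mem_graded (gen_mem _ _) (gen_mem _ _)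

/-- the intersection of the two charts. -/
noncomputable abbrev W12 : (Proj (gr I)).Opens := Proj.basicOpen (gr I) (s12 I)

/-- the map from the ring of the first chart -/
noncomputable def ψ1 : Ch I 1 →+* Γ(Proj (gr I), W12 I) :=
  (Proj.awayToSection (gr I) (s12 I)).hom.comp (awayMap (gr I) (gen_mem I 2) rfl)

/-- the map from the ring of the second chart -/
noncomputable def ψ2 : Ch I 2 →+* Γ(Proj (gr I), W12 I) :=
  (Proj.awayToSection (gr I) (s12 I)).hom.comp (awayMap (gr I) (gen_mem I 1) (s12_eq I))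

lemma ψ1_alg (r : K) : ψ1 I (algebraMap K _ r) = fnHom (pstr (gr I)) (W12 I) r := by
  rw [fnHom_basicOpen (gr I) (by norm_num) (s12 I) (s12_mem I)]
  change (Proj.awayToSection (gr I) (s12 I)).hom (awayMap (gr I) (gen_mem I 2) rfl
    (fromZeroRingHom _ _ _)) = _
  rw [awayMap_fromZeroRingHom]
  rfl

lemma ψ2_alg (r : K) : ψ2 I (algebraMap K _ r) = fnHom (pstr (gr I)) (W12 I) r := by
  rw [fnHom_basicOpen (gr I) (by norm_num) (s12 I) (s12_mem I)]
  change (Proj.awayToSection (gr I) (s12 I)).hom (awayMap (gr I) (gen_mem I 1) (s12_eq I)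
    (fromZeroRingHom _ _ _)) = _
  rw [awayMap_fromZeroRingHom]
  rfl

lemma awayMap_frac {f g x : MvPolynomial (Fin 3) K ⧸ I.toIdeal} {m : ℕ}
    (c a : Fin 3) (hf : f = gen I c) (hg : g ∈ gr I m) (hx : x = f * g) :
    algebraMap _ (Localization.Away x) (gen I c) *
      (awayMap (gr I) hg hx (hf ▸ frac I c a : Away (gr I) f)).val =
    algebraMap _ (Localization.Away x) (gen I a) := by
  subst hf
  rw [val_awayMap]
  have h := chVal_frac I c a
  have h2 : (frac I c a : Away (gr I) (gen I c)).val = chVal I c (frac I c a) := rfl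
  change _ * Localization.awayLift _ _ _ (frac I c a : Away (gr I) (gen I c)).val = _
  rw [h2]
  have h3 := congrArg (Localization.awayLift (algebraMap _ (Localization.Away x)) _
    (isUnit_of_dvd_unit (map_dvd _ ⟨_, hx⟩) (IsLocalization.Away.algebraMap_isUnit x))) h
  rw [map_mul] at h3
  have h4 : ∀ z, Localization.awayLift (algebraMap _ (Localization.Away x)) _
    (isUnit_of_dvd_unit (map_dvd _ ⟨_, hx⟩) (IsLocalization.Away.algebraMap_isUnit x))
    (algebraMap (MvPolynomial (Fin 3) K ⧸ I.toIdeal) (Localization.Away (gen I c)) z) =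
      algebraMap _ (Localization.Away x) z := by
    intro z
    exact IsLocalization.Away.lift_eq _ _ _
  rw [h4, h4] at h3
  exact h3

lemma rel_away :
    awayMap (gr I) (gen_mem I 1) (s12_eq I) (frac I 2 1) *
      awayMap (gr I) (gen_mem I 2) (rfl : s12 I = _) (frac I 1 2) = 1 ∧
    awayMap (gr I) (gen_mem I 2) (rfl : s12 I = _) (frac I 1 0) =
      awayMap (gr I) (gen_mem I 1) (s12_eq I) (frac I 2 0) *
        awayMap (gr I) (gen_mem I 2) (rfl : s12 I = _) (frac I 1 2) := by
  have h21 := awayMap_frac I (x := s12 I) 2 1 rfl (gen_mem I 1) (s12_eq I)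
  have h20 := awayMap_frac I (x := s12 I) 2 0 rfl (gen_mem I 1) (s12_eq I)
  have h12 := awayMap_frac I (x := s12 I) 1 2 rfl (gen_mem I 2) rfl
  have h10 := awayMap_frac I (x := s12 I) 1 0 rfl (gen_mem I 2) rfl
  have hu : IsUnit (algebraMap (MvPolynomial (Fin 3) K ⧸ I.toIdeal)
      (Localization.Away (s12 I)) (s12 I)) := IsLocalization.Away.algebraMap_isUnit _
  have hu1 : IsUnit (algebraMap (MvPolynomial (Fin 3) K ⧸ I.toIdeal)
      (Localization.Away (s12 I)) (gen I 1)) :=
    isUnit_of_dvd_unit (map_dvd _ ⟨_, rfl⟩) hu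
  have hu2 : IsUnit (algebraMap (MvPolynomial (Fin 3) K ⧸ I.toIdeal)
      (Localization.Away (s12 I)) (gen I 2)) :=
    isUnit_of_dvd_unit (map_dvd _ ⟨_, s12_eq I⟩) hu
  constructor
  · apply HomogeneousLocalization.val_injective
    rw [val_mul, val_one]
    apply hu2.mul_left_cancel
    rw [← mul_assoc]
    refine (congrArg (· * _) h21).trans ?_
    rw [mul_one]
    exact h12
  · apply HomogeneousLocalization.val_injective
    rw [val_mul]
    apply hu1.mul_left_cancel
    refine h10.trans ?_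
    rw [← h20, mul_comm (val _) (val _), ← mul_assoc]
    exact congrArg (· * _) h12.symm

lemma rel_ψ : ψ2 I (frac I 2 1) * ψ1 I (frac I 1 2) = 1 ∧
    ψ1 I (frac I 1 0) = ψ2 I (frac I 2 0) * ψ1 I (frac I 1 2) := by
  have h := rel_away I
  constructor
  · refine (map_mul (Proj.awayToSection (gr I) (s12 I)).hom _ _).symm.trans ?_
    refine (congrArg _ h.1).trans ?_
    exact map_one _
  · refine (congrArg (Proj.awayToSection (gr I) (s12 I)).hom h.2).trans ?_
    exact map_mul _ _ _

lemma W12_eq : W12 I =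
    Proj.basicOpen (gr I) (gen I 1) ⊓ Proj.basicOpen (gr I) (gen I 2) :=
  Proj.basicOpen_mul _ _ _

end diagonal

section genus

variable {K : Type} [Field K] {d : ℕ} {w : Fin 3 → K} (hw : ∀ i, w i ≠ 0) (hd : 0 < d)

include hw hd

set_option synthInstance.maxHeartbeats 400000 in
lemma cechDim_W :
    CechDim (pstr (gr (J K d w))) (Proj.basicOpen (gr (J K d w)) (gen (J K d w) 1))
      (Proj.basicOpen (gr (J K d w)) (gen (J K d w) 2))
      (W12 (J K d w)) (Proj.basicOpen_mono _ _ _ ⟨_, rfl⟩)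
      (Proj.basicOpen_mono _ _ _ ⟨_, s12_eq (J K d w)⟩) ((d - 1) * (d - 2) / 2) := by
  unfold CechDim CokerDim
  letI i0 : Algebra K Γ(Proj (gr (J K d w)), W12 (J K d w)) :=
    (fnHom (pstr (gr (J K d w))) (W12 (J K d w))).toAlgebra
  let r1 : Ch (J K d w) 1 →ₐ[K] Γ(Proj (gr (J K d w)), W12 (J K d w)) :=
    { ψ1 (J K d w) with commutes' := ψ1_alg (J K d w) }
  let r2 : Ch (J K d w) 2 →ₐ[K] Γ(Proj (gr (J K d w)), W12 (J K d w)) :=
    { ψ2 (J K d w) with commutes' := ψ2_alg (J K d w) }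
  let q1 : A K d (al w t1) (be w t1) →ₐ[K] Γ(Proj (gr (J K d w)), W12 (J K d w)) :=
    r1.comp (chEquiv (d := d) hw t1).symm.toAlgHom
  let q2 : A K d (al w t2) (be w t2) →ₐ[K] Γ(Proj (gr (J K d w)), W12 (J K d w)) :=
    r2.comp (chEquiv (d := d) hw t2).symm.toAlgHom
  letI i2 : Algebra (A K d (al w t2) (be w t2)) Γ(Proj (gr (J K d w)), W12 (J K d w)) :=
    q2.toRingHom.toAlgebra
  have hst : IsScalarTower K (A K d (al w t2) (be w t2)) Γ(Proj (gr (J K d w)), W12 (J K d w)) :=
    IsScalarTower.of_algebraMap_eq (fun r => (q2.commutes r).symm)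
  have e1y : (chEquiv (d := d) hw t1).symm (y K d (al w t1) (be w t1)) = frac (J K d w) 1 0 := by
    rw [AlgEquiv.symm_apply_eq]
    exact (chEquiv_a (d := d) hw t1).symm
  have e1x : (chEquiv (d := d) hw t1).symm (x K d (al w t1) (be w t1)) = frac (J K d w) 1 2 := by
    rw [AlgEquiv.symm_apply_eq]
    exact (chEquiv_b (d := d) hw t1).symm
  have e2y : (chEquiv (d := d) hw t2).symm (y K d (al w t2) (be w t2)) = frac (J K d w) 2 0 := by
    rw [AlgEquiv.symm_apply_eq]
    exact (chEquiv_a (d := d) hw t2).symm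
  have e2x : (chEquiv (d := d) hw t2).symm (x K d (al w t2) (be w t2)) = frac (J K d w) 2 1 := by
    rw [AlgEquiv.symm_apply_eq]
    exact (chEquiv_b (d := d) hw t2).symm
  have q1x : q1 (x K d (al w t1) (be w t1)) = ψ1 (J K d w) (frac (J K d w) 1 2) :=
    congrArg (ψ1 (J K d w)) e1x
  have q1y : q1 (y K d (al w t1) (be w t1)) = ψ1 (J K d w) (frac (J K d w) 1 0) :=
    congrArg (ψ1 (J K d w)) e1y
  have q2x : q2 (x K d (al w t2) (be w t2)) = ψ2 (J K d w) (frac (J K d w) 2 1) :=
    congrArg (ψ2 (J K d w)) e2x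
  have q2y : q2 (y K d (al w t2) (be w t2)) = ψ2 (J K d w) (frac (J K d w) 2 0) :=
    congrArg (ψ2 (J K d w)) e2y
  have hrel := rel_ψ (J K d w)
  let u : Γ(Proj (gr (J K d w)), W12 (J K d w))ˣ :=
    ⟨ψ2 (J K d w) (frac (J K d w) 2 1), ψ1 (J K d w) (frac (J K d w) 1 2), hrel.1,
      (mul_comm _ _).trans hrel.1⟩
  have hloc : IsLocalization.Away (x K d (al w t2) (be w t2))
      Γ(Proj (gr (J K d w)), W12 (J K d w)) := by
    have h1 := Away.isLocalization_mul (gen_mem (J K d w) 2) (gen_mem (J K d w) 1)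
      (s12_eq (J K d w)) one_ne_zero
    rw [V.isLocalizationElem_eq] at h1
    have h2 := isLoc_transfer (awayMap (gr (J K d w)) (gen_mem (J K d w) 1) (s12_eq (J K d w)))
      q2.toRingHom (chEquiv (d := d) hw t2).toRingEquiv
      (RingEquiv.ofBijective _ (awayToSection_bijective (gr (J K d w)) (by norm_num)
        (s12 (J K d w)) (s12_mem (J K d w))))
      (frac (J K d w) 2 1) (fun r => by
        change ψ2 (J K d w) ((chEquiv (d := d) hw t2).symm (chEquiv (d := d) hw t2 r)) = _
        rw [AlgEquiv.symm_apply_apply]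
        rfl) h1
    have h3 : (chEquiv (d := d) hw t2).toRingEquiv (frac (J K d w) 2 1) =
        x K d (al w t2) (be w t2) := chEquiv_b (d := d) hw t2
    exact Eq.mp (congrArg (fun z => IsLocalization.Away z
      Γ(Proj (gr (J K d w)), W12 (J K d w))) h3) h2
  have key := cech (K := K) (B := Γ(Proj (gr (J K d w)), W12 (J K d w))) hd u q2x.symm q1 q1x (by
    rw [q1y]
    exact hrel.2.trans (congrArg (· * _) q2y.symm))
  have hS : Submodule.span K
      (Set.range ((Proj (gr (J K d w))).presheaf.map (homOfLE (Proj.basicOpen_mono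
        (gr (J K d w)) _ _ (⟨_, rfl⟩ : gen (J K d w) 1 ∣ s12 (J K d w)))).op) ∪
        Set.range ((Proj (gr (J K d w))).presheaf.map (homOfLE (Proj.basicOpen_mono
        (gr (J K d w)) _ _ (⟨_, s12_eq (J K d w)⟩ : gen (J K d w) 2 ∣ s12 (J K d w)))).op)) =
      LinearMap.range q1.toLinearMap ⊔
        LinearMap.range (IsScalarTower.toAlgHom K (A K d (al w t2) (be w t2))
          Γ(Proj (gr (J K d w)), W12 (J K d w))).toLinearMap := by
    rw [range_res (gr (J K d w)) one_pos (gen (J K d w) 1) (gen (J K d w) 2) (s12 (J K d w))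
        (gen_mem _ _) (gen_mem _ _) rfl,
      range_res (gr (J K d w)) one_pos (gen (J K d w) 2) (gen (J K d w) 1) (s12 (J K d w))
        (gen_mem _ _) (gen_mem _ _) (s12_eq (J K d w)), Submodule.span_union]
    congr 1
    · have : (Set.range ((Proj.awayToSection (gr (J K d w)) (s12 (J K d w))).hom.comp
          (awayMap (gr (J K d w)) (gen_mem (J K d w) 2) (rfl : s12 (J K d w) = _)))) =
          ((LinearMap.range q1.toLinearMap : Submodule K _) : Set _) := by
        ext z
        constructor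
        · rintro ⟨a, rfl⟩
          exact ⟨chEquiv (d := d) hw t1 a,
            congrArg (ψ1 (J K d w)) ((chEquiv (d := d) hw t1).symm_apply_apply a)⟩
        · rintro ⟨a, rfl⟩
          exact ⟨(chEquiv (d := d) hw t1).symm a, rfl⟩
      rw [this, Submodule.span_eq]
    · have : (Set.range ((Proj.awayToSection (gr (J K d w)) (s12 (J K d w))).hom.comp
          (awayMap (gr (J K d w)) (gen_mem (J K d w) 1) (s12_eq (J K d w))))) =
          ((LinearMap.range (IsScalarTower.toAlgHom K (A K d (al w t2) (be w t2))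
            Γ(Proj (gr (J K d w)), W12 (J K d w))).toLinearMap : Submodule K _) : Set _) := by
        ext z
        constructor
        · rintro ⟨a, rfl⟩
          exact ⟨chEquiv (d := d) hw t2 a,
            congrArg (ψ2 (J K d w)) ((chEquiv (d := d) hw t2).symm_apply_apply a)⟩
        · rintro ⟨a, rfl⟩
          exact ⟨(chEquiv (d := d) hw t2).symm a, rfl⟩
      rw [this, Submodule.span_eq]
  rw [hS]
  exact key

lemma cover12 :
    Proj.basicOpen (gr (J K d w)) (gen (J K d w) 1) ⊔
      Proj.basicOpen (gr (J K d w)) (gen (J K d w) 2) = ⊤ := by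
  rw [eq_top_iff]
  intro x _
  by_contra hcon
  have h1 : x ∉ Proj.basicOpen (gr (J K d w)) (gen (J K d w) 1) := fun h => hcon (Or.inl h)
  have h2 : x ∉ Proj.basicOpen (gr (J K d w)) (gen (J K d w) 2) := fun h => hcon (Or.inr h)
  obtain ⟨c, hc⟩ := V.exists_mem_D (J K d w) x
  have hc0 : c = 0 := by
    fin_cases c
    · rfl
    · exact absurd hc h1
    · exact absurd hc h2
  subst hc0
  rw [Proj.mem_basicOpen, not_not] at h1 h2
  rw [V.mem_D_iff] at hc
  apply hc
  obtain ⟨e, rfl⟩ : ∃ e, d = e + 1 := ⟨d - 1, by omega⟩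
  have hr : algebraMap K _ (w 0) * gen (J K (e + 1) w) 0 ^ (e + 1) +
      algebraMap K _ (w 1) * gen (J K (e + 1) w) 1 ^ (e + 1) +
      algebraMap K _ (w 2) * gen (J K (e + 1) w) 2 ^ (e + 1) = 0 := by
    have h : Ideal.Quotient.mk (J K (e + 1) w).toIdeal (form K (e + 1) w) = 0 :=
      Ideal.Quotient.eq_zero_iff_mem.2 (mem_ofSet rfl)
    rw [form, map_sum, Fin.sum_univ_three] at h
    simp only [map_mul, map_pow] at h
    exact h
  have h0 : algebraMap K (MvPolynomial (Fin 3) K ⧸ (J K (e + 1) w).toIdeal) (w 0)⁻¹ *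
      algebraMap K _ (w 0) = 1 := by
    rw [← map_mul, inv_mul_cancel₀ (hw 0), map_one]
  have h3 : gen (J K (e + 1) w) 0 ^ (e + 1) ∈
      (ProjectiveSpectrum.asHomogeneousIdeal (𝒜 := gr (J K (e + 1) w)) x).toIdeal := by
    have e1 : gen (J K (e + 1) w) 0 ^ (e + 1) =
        (-(algebraMap K _ (w 0)⁻¹ * algebraMap K _ (w 1) * gen (J K (e + 1) w) 1 ^ e)) *
          gen (J K (e + 1) w) 1 +
        (-(algebraMap K _ (w 0)⁻¹ * algebraMap K _ (w 2) * gen (J K (e + 1) w) 2 ^ e)) *
          gen (J K (e + 1) w) 2 := by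
      linear_combination (algebraMap K _ (w 0)⁻¹) * hr - gen (J K (e + 1) w) 0 ^ (e + 1) * h0
    rw [e1]
    exact Ideal.add_mem _ (Ideal.mul_mem_left _ _ h1) (Ideal.mul_mem_left _ _ h2)
  exact x.isPrime.mem_of_pow_mem (e + 1) h3

/-- The diagonal curve of degree `d` has genus `(d - 1) (d - 2) / 2`. -/
theorem hasGenus_curve : HasGenus (V.str (J K d w)) ((d - 1) * (d - 2) / 2) := by
  have h : ∀ (W : (Proj (gr (J K d w))).Opens)
      (hU : W ≤ Proj.basicOpen (gr (J K d w)) (gen (J K d w) 1))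
      (hV : W ≤ Proj.basicOpen (gr (J K d w)) (gen (J K d w) 2)), W = W12 (J K d w) →
      CechDim (pstr (gr (J K d w))) (Proj.basicOpen (gr (J K d w)) (gen (J K d w) 1))
        (Proj.basicOpen (gr (J K d w)) (gen (J K d w) 2)) W hU hV ((d - 1) * (d - 2) / 2) := by
    rintro W hU hV rfl
    exact cechDim_W hw hd
  have h1 : HasGenus (pstr (gr (J K d w))) ((d - 1) * (d - 2) / 2) := by
    refine ⟨Proj.basicOpen (gr (J K d w)) (gen (J K d w) 1),
      Proj.basicOpen (gr (J K d w)) (gen (J K d w) 2),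
      Proj.isAffineOpen_basicOpen _ _ (gen_mem _ _) one_pos,
      Proj.isAffineOpen_basicOpen _ _ (gen_mem _ _) one_pos, ?_, cover12 hw hd,
      h _ _ _ (W12_eq (J K d w)).symm⟩
    rw [← W12_eq]
    exact Proj.isAffineOpen_basicOpen _ _ (s12_mem (J K d w)) (by norm_num)
  exact h1

end genus

end Pool.Agent.Y397.NG
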