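import Pool.Agent.H666R3.NG.Limit
import Pool.Agent.Y397.NG.Genus

/-!
# Pointless diagonal curves over all finite fields with at least five elements
-/

set_option autoImplicit false

open CategoryTheory AlgebraicGeometry

namespace Pool.Agent.Y397.NG

open Pool.Agent.H666R3.NG

/-- in a field with at least five elements there are coefficients without vanishing partial
sums. -/
lemma exists_coeff (k : Type) [Field k] [Finite k] (h5 : 5 ≤ Nat.card k) :
    ∃ b c : k, b ≠ 0 ∧ c ≠ 0 ∧ 1 + b ≠ 0 ∧ 1 + c ≠ 0 ∧ b + c ≠ 0 ∧ 1 + b + c ≠ 0 := by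
  classical
  have := Fintype.ofFinite k
  rw [Nat.card_eq_fintype_card] at h5
  have hex : ∀ s : Finset k, s.card ≤ 4 → ∃ x : k, x ∉ s := by
    intro s hs
    by_contra hcon
    push Not at hcon
    have h1 : (Finset.univ : Finset k) ⊆ s := fun x _ => hcon x
    have h2 := Finset.card_le_card h1
    rw [Finset.card_univ] at h2
    omega
  obtain ⟨b, hb⟩ := hex {0, -1} (by
    have := Finset.card_le_two (a := (0 : k)) (b := -1)
    omega)
  obtain ⟨c, hc⟩ := hex {0, -1, -b, -1 - b} Finset.card_le_four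
  simp only [Finset.mem_insert, Finset.mem_singleton, not_or] at hb hc
  refine ⟨b, c, hb.1, hc.1, ?_, ?_, ?_, ?_⟩
  · intro h
    exact hb.2 (by linear_combination h)
  · intro h
    exact hc.2.1 (by linear_combination h)
  · intro h
    exact hc.2.2.1 (by linear_combination h)
  · intro h
    exact hc.2.2.2 (by linear_combination h)

/-- The form has no nontrivial zero. -/
lemma no_zero {k : Type} [Field k] [Finite k] {b c : k} (hb : b ≠ 0) (hc : c ≠ 0)
    (h1b : 1 + b ≠ 0) (h1c : 1 + c ≠ 0) (hbc : b + c ≠ 0) (h1bc : 1 + b + c ≠ 0) {m : ℕ}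
    (hd : m * (Nat.card k - 1) ≠ 0)
    (u : Fin 3 → k) (hu : ∑ i, (![1, b, c] : Fin 3 → k) i * u i ^ (m * (Nat.card k - 1)) = 0) :
    ∀ i, u i = 0 := by
  have := Fintype.ofFinite k
  have hp : ∀ x : k, x ≠ 0 → x ^ (m * (Nat.card k - 1)) = 1 := by
    intro x hx
    rw [mul_comm, pow_mul, Nat.card_eq_fintype_card, FiniteField.pow_card_sub_one_eq_one x hx,
      one_pow]
  have h0 : (0 : k) ^ (m * (Nat.card k - 1)) = 0 := zero_pow hd
  rw [Fin.sum_univ_three] at hu
  simp only [Matrix.cons_val_zero, Matrix.cons_val_one, Matrix.cons_val] at hu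
  by_cases z0 : u 0 = 0 <;> by_cases z1 : u 1 = 0 <;> by_cases z2 : u 2 = 0
  · intro i
    fin_cases i
    · exact z0
    · exact z1
    · exact z2
  all_goals exfalso
  · rw [z0, z1, h0, hp _ z2] at hu
    exact hc (by linear_combination hu)
  · rw [z0, z2, h0, hp _ z1] at hu
    exact hb (by linear_combination hu)
  · rw [z0, h0, hp _ z1, hp _ z2] at hu
    exact hbc (by linear_combination hu)
  · rw [z1, z2, h0, hp _ z0] at hu
    exact one_ne_zero (α := k) (by linear_combination hu)
  · rw [z1, h0, hp _ z0, hp _ z2] at hu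
    exact h1c (by linear_combination hu)
  · rw [z2, h0, hp _ z0, hp _ z1] at hu
    exact h1b (by linear_combination hu)
  · rw [hp _ z0, hp _ z1, hp _ z2] at hu
    exact h1bc (by linear_combination hu)

/-- Every Nori gerbe over a finite field has a point. -/
theorem points_nonempty (k : Type) [Field k] [Finite k] (X : Sch k) (Pi : OverSch k)
    (ξ : Pi.p.Fiber X) (h : IsNoriGerbe X Pi ξ) : Nonempty (Points Pi) := by
  have := Fintype.ofFinite k
  obtain ⟨x⟩ := exists_point_profinite h.profinite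
  exact ⟨Quotient.mk _ x⟩

theorem finGen (k : Type) [Field k] [Finite k] : FinGenOverPrime k := by
  have := Fintype.ofFinite k
  refine ⟨Finset.univ, ?_⟩
  rw [Finset.coe_univ]
  exact Subfield.closure_univ

/-- The curves. -/
theorem main (k : Type) [Field k] [Finite k] (h5 : 5 ≤ Nat.card k) (m : ℕ) (hm : (m : k) ≠ 0) :
    ∃ X : Sch k, IsProper X.hom ∧ SmoothOfRelativeDimension 1 X.hom ∧
      GeometricallyConnected X.hom ∧
      HasGenus X.hom ((m * (Nat.card k - 1) - 1) * (m * (Nat.card k - 1) - 2) / 2) ∧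
      IsEmpty (Pool.Agent.H666R3.NG.pt k ⟶ X) := by
  have hfin := Fintype.ofFinite k
  obtain ⟨b, c, hb, hc, h1b, h1c, hbc, h1bc⟩ := exists_coeff k h5
  have hm0 : m ≠ 0 := by
    rintro rfl
    exact hm Nat.cast_zero
  have hd : m * (Nat.card k - 1) ≠ 0 := mul_ne_zero hm0 (by omega)
  have hq : ((Nat.card k - 1 : ℕ) : k) ≠ 0 := by
    have h1 : 1 ≤ Nat.card k := by omega
    rw [Nat.cast_sub h1, Nat.cast_one, Nat.card_eq_fintype_card, Nat.cast_card_eq_zero, zero_sub]
    exact neg_ne_zero.2 one_ne_zero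
  have hdK : ((m * (Nat.card k - 1) : ℕ) : k) ≠ 0 := by
    rw [Nat.cast_mul]
    exact mul_ne_zero hm hq
  have hw : ∀ i, (![1, b, c] : Fin 3 → k) i ≠ 0 := by
    intro i
    fin_cases i
    · exact one_ne_zero
    · exact hb
    · exact hc
  have hd' : 0 < m * (Nat.card k - 1) := Nat.pos_of_ne_zero hd
  refine ⟨Over.mk (Pool.Agent.Helper198.Sch.V.str (J k (m * (Nat.card k - 1)) ![1, b, c])),
    isProper_curve k _ _, smooth_curve hw hd' hdK, ?_, hasGenus_curve hw hd', ⟨fun a => ?_⟩⟩
  · have h := geometricallyIntegral_curve (K := k) hw hd' hdK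
    refine ⟨?_⟩
    intro K _ y Z fst snd hp
    have hZ : IsIntegral Z := h.geometrically_isIntegral y fst snd hp
    infer_instance
  · exact no_section (no_zero hb hc h1b h1c hbc h1bc hd) a.left (Over.w a)

end Pool.Agent.Y397.NG
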